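import Mathlib

set_option autoImplicit false

open scoped Classical

noncomputable section

namespace HDR57

/-- The graph of a parent function. -/
def parT {m : ℕ} (p : Fin m → Fin m) : SimpleGraph (Fin m) where
  Adj i j := (j < i ∧ p i = j) ∨ (i < j ∧ p j = i)
  symm := ⟨fun _ _ h => h.symm⟩
  loopless := ⟨fun i h => by rcases h with h | h <;> exact lt_irrefl _ h.1⟩

theorem parT_reach {m : ℕ} (p : Fin m → Fin m) (S : Set (Fin m)) (l : Fin m) (hl : l ∈ S)
    (h : ∀ i ∈ S, i ≠ l → p i ∈ S ∧ p i < i) :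
    ∀ (n : ℕ) (i : Fin m) (hi : i ∈ S), i.val = n → ((parT p).induce S).Reachable ⟨i, hi⟩ ⟨l, hl⟩ := by
  intro n
  induction n using Nat.strong_induction_on with
  | _ n ih =>
    intro i hi hn
    by_cases hil : i = l
    · subst hil
      exact SimpleGraph.Reachable.refl _
    · obtain ⟨h1, h2⟩ := h i hi hil
      have h3 := ih (p i).val (by rw [← hn]; exact h2) (p i) h1 rfl
      have h4 : ((parT p).induce S).Adj ⟨i, hi⟩ ⟨p i, h1⟩ := by
        change (parT p).Adj i (p i)
        exact Or.inl ⟨h2, rfl⟩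
      exact h4.reachable.trans h3

theorem parT_induce_conn {m : ℕ} (p : Fin m → Fin m) (S : Set (Fin m)) (l : Fin m) (hl : l ∈ S)
    (h : ∀ i ∈ S, i ≠ l → p i ∈ S ∧ p i < i) : ((parT p).induce S).Connected := by
  have hne : Nonempty S := ⟨⟨l, hl⟩⟩
  refine ⟨fun a b => ?_⟩
  exact (parT_reach p S l hl h _ a.1 a.2 rfl).trans (parT_reach p S l hl h _ b.1 b.2 rfl).symm

theorem parT_tree {m : ℕ} (hm : 0 < m) (p : Fin m → Fin m)
    (hp : ∀ i : Fin m, i.val ≠ 0 → p i < i) : (parT p).IsTree := by
  have hconn : (parT p).Connected := by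
    have h1 := parT_induce_conn p Set.univ ⟨0, hm⟩ (Set.mem_univ _) (fun i _ hi => ⟨Set.mem_univ _, hp i (by
      intro h0
      apply hi
      exact Fin.ext h0)⟩)
    have e : (parT p).induce Set.univ ≃g parT p := SimpleGraph.induceUnivIso _
    exact e.connected_iff.1 h1
  rw [SimpleGraph.isTree_iff_connected_and_card]
  refine ⟨hconn, ?_⟩
  have hsub : (parT p).edgeFinset ⊆ ((Finset.univ : Finset (Fin m)).erase ⟨0, hm⟩).image (fun i => s(i, p i)) := by
    intro e he
    induction e using Sym2.ind with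
    | _ a b =>
      rw [SimpleGraph.mem_edgeFinset, SimpleGraph.mem_edgeSet] at he
      rw [Finset.mem_image]
      rcases he with ⟨h1, h2⟩ | ⟨h1, h2⟩
      · refine ⟨a, ?_, by rw [h2]⟩
        rw [Finset.mem_erase]
        refine ⟨?_, Finset.mem_univ _⟩
        intro h3
        rw [h3] at h1
        exact absurd h1 (by simp [Fin.lt_def])
      · refine ⟨b, ?_, by rw [h2, Sym2.eq_swap]⟩
        rw [Finset.mem_erase]
        refine ⟨?_, Finset.mem_univ _⟩
        intro h3
        rw [h3] at h1
        exact absurd h1 (by simp [Fin.lt_def])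
  have hle : (parT p).edgeFinset.card ≤ m - 1 := by
    refine (Finset.card_le_card hsub).trans (Finset.card_image_le.trans ?_)
    rw [Finset.card_erase_of_mem (Finset.mem_univ _)]
    simp
  have hge := hconn.card_vert_le_card_edgeSet_add_one
  have e1 : Nat.card (parT p).edgeSet = (parT p).edgeFinset.card := by
    rw [SimpleGraph.edgeFinset, Set.toFinset_card, Nat.card_eq_fintype_card]
  have e2 : Nat.card (Fin m) = m := by simp
  rw [e2] at hge ⊢
  rw [e1] at hge ⊢
  omega

end HDR57
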