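import Pool.Agent.LibHD.Basic

set_option autoImplicit false

open scoped Classical

noncomputable section

namespace HDR57

open HD

variable {V : Type*} [Fintype V] [DecidableEq V] {G : SimpleGraph V}

/-- The vertices of `F` whose removal leaves a nonempty connected set. -/
def nc (G : SimpleGraph V) (F : Finset V) : Finset V := F.filter (fun v => Conn G (F.erase v))

omit [Fintype V] in
theorem mem_nc {F : Finset V} {v : V} : v ∈ nc G F ↔ v ∈ F ∧ Conn G (F.erase v) := by
  simp [nc]

theorem conn_insert {E : Finset V} (hE : Conn G E) {u v : V} (hu : u ∈ E) (h : G.Adj v u) :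
    Conn G (insert v E) := by
  rw [Finset.insert_eq]
  exact (conn_singleton v).union_touch hE ⟨v, Finset.mem_singleton_self v, u, hu, h⟩

theorem grow (F : Finset V) (hF : Conn G F) : ∀ n : ℕ, 2 ≤ n → n ≤ F.card →
    ∃ E ⊆ F, E.card = n ∧ Conn G E ∧ ∃ Z ⊆ E, Z.card + 2 ≤ (nc G E).card ∧ Col G (E \ Z) 2 := by
  intro n hn
  induction n, hn using Nat.le_induction with
  | base =>
    intro h2
    obtain ⟨x, hx⟩ := hF.nonempty
    have h1 : (F \ {x}).Nonempty := by
      rw [← Finset.card_pos, Finset.card_sdiff_of_subset (Finset.singleton_subset_iff.2 hx), Finset.card_singleton]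
      omega
    obtain ⟨u, hu, v, hv, huv⟩ := hF.pc {x} (Finset.singleton_subset_iff.2 hx) (Finset.singleton_nonempty x) h1
    have hux : u = x := Finset.mem_singleton.1 hu
    subst hux
    have hvF := (Finset.mem_sdiff.1 hv).1
    have hvu : v ≠ u := fun h => (Finset.mem_sdiff.1 hv).2 (by rw [h]; exact Finset.mem_singleton_self _)
    have hcard : ({u, v} : Finset V).card = 2 := Finset.card_pair hvu.symm
    refine ⟨{u, v}, ?_, hcard, conn_pair huv, ∅, Finset.empty_subset _, ?_, ?_⟩
    · intro z hz
      rcases Finset.mem_insert.1 hz with h | h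
      · rw [h]; exact hx
      · rw [Finset.mem_singleton.1 h]; exact hvF
    · have e : nc G {u, v} = {u, v} := by
        apply Finset.Subset.antisymm (Finset.filter_subset _ _)
        intro z hz
        refine mem_nc.2 ⟨hz, ?_⟩
        rcases Finset.mem_insert.1 hz with h | h
        · rw [h]
          have e1 : ({u, v} : Finset V).erase u = {v} := by
            rw [Finset.erase_insert]
            simpa using hvu.symm
          rw [e1]; exact conn_singleton v
        · rw [Finset.mem_singleton.1 h]
          have e1 : ({u, v} : Finset V).erase v = {u} := by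
            rw [Finset.pair_comm, Finset.erase_insert]
            simpa using hvu
          rw [e1]; exact conn_singleton u
      rw [e, hcard]
      simp
    · rw [Finset.sdiff_empty, ← hcard]
      exact col_card _
  | succ n hn ih =>
    intro hle
    obtain ⟨E, hEF, hEn, hE, Z, hZE, hZ, φ, hφ1, hφ2⟩ := ih (by omega)
    have h1 : (F \ E).Nonempty := by
      rw [← Finset.card_pos, Finset.card_sdiff_of_subset hEF]
      omega
    obtain ⟨u, hu, v, hv, huv⟩ := hF.pc E hEF hE.nonempty h1
    have hvF := (Finset.mem_sdiff.1 hv).1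
    have hvE := (Finset.mem_sdiff.1 hv).2
    have hsub : insert v E ⊆ F := Finset.insert_subset hvF hEF
    have hcard : (insert v E).card = n + 1 := by rw [Finset.card_insert_of_notMem hvE, hEn]
    have hvn : v ∈ nc G (insert v E) := by
      rw [mem_nc]
      refine ⟨Finset.mem_insert_self _ _, ?_⟩
      rw [Finset.erase_insert hvE]
      exact hE
    have hkeep : ∀ w ∈ nc G E, ∀ u' ∈ E, G.Adj u' v → u' ≠ w → w ∈ nc G (insert v E) := by
      intro w hw u' hu' hadj hne
      obtain ⟨hwE, hwc⟩ := mem_nc.1 hw
      rw [mem_nc]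
      refine ⟨Finset.mem_insert_of_mem hwE, ?_⟩
      have hvw : v ≠ w := fun h => hvE (h ▸ hwE)
      rw [Finset.erase_insert_of_ne hvw]
      exact conn_insert hwc (Finset.mem_erase.2 ⟨hne, hu'⟩) hadj.symm
    by_cases hex : ∃ u' ∈ E, G.Adj u' v ∧ u' ≠ u
    · obtain ⟨u', hu', hadj', hne'⟩ := hex
      refine ⟨insert v E, hsub, hcard, conn_insert hE hu huv.symm, insert v Z,
        Finset.insert_subset_insert _ hZE, ?_, ?_⟩
      · have hsub2 : insert v (nc G E) ⊆ nc G (insert v E) := by
          intro w hw
          rcases Finset.mem_insert.1 hw with h | h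
          · rw [h]; exact hvn
          · by_cases huw : u = w
            · exact hkeep w h u' hu' hadj' (by rw [← huw]; exact hne')
            · exact hkeep w h u hu huv huw
        have hvnc : v ∉ nc G E := fun h => hvE (mem_nc.1 h).1
        have h3 := Finset.card_le_card hsub2
        rw [Finset.card_insert_of_notMem hvnc] at h3
        have h4 : (insert v Z).card ≤ Z.card + 1 := Finset.card_insert_le _ _
        omega
      · have e : insert v E \ insert v Z = E \ Z := by
          ext z
          simp only [Finset.mem_sdiff, Finset.mem_insert, not_or]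
          constructor
          · rintro ⟨h1 | h1, h2, h3⟩
            · exact absurd h1 h2
            · exact ⟨h1, h3⟩
          · rintro ⟨h1, h2⟩
            exact ⟨Or.inr h1, fun h => hvE (h ▸ h1), h2⟩
        rw [e]
        exact ⟨φ, hφ1, hφ2⟩
    · push Not at hex
      refine ⟨insert v E, hsub, hcard, conn_insert hE hu huv.symm, Z,
        hZE.trans (Finset.subset_insert _ _), ?_, ?_⟩
      · have hsub2 : insert v ((nc G E).erase u) ⊆ nc G (insert v E) := by
          intro w hw
          rcases Finset.mem_insert.1 hw with h | h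
          · rw [h]; exact hvn
          · obtain ⟨h5, h6⟩ := Finset.mem_erase.1 h
            exact hkeep w h6 u hu huv h5.symm
        have hvnc : v ∉ (nc G E).erase u := fun h => hvE (mem_nc.1 (Finset.mem_of_mem_erase h)).1
        have h3 := Finset.card_le_card hsub2
        rw [Finset.card_insert_of_notMem hvnc] at h3
        have h4 : (nc G E).card - 1 ≤ ((nc G E).erase u).card := Finset.pred_card_le_card_erase
        omega
      · refine ⟨fun x => if x = v then 1 - φ u else φ x, ?_, ?_⟩
        · intro x hx
          by_cases hxv : x = v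
          · simp only [hxv, if_true]
            omega
          · simp only [hxv, if_false]
            apply hφ1
            rw [Finset.mem_sdiff] at hx ⊢
            exact ⟨(Finset.mem_insert.1 hx.1).resolve_left hxv, hx.2⟩
        · intro x hx y hy hxy
          have key : ∀ z ∈ insert v E \ Z, z ≠ v → G.Adj z v → φ z ≠ 1 - φ u := by
            intro z hz hzv hadj
            rw [Finset.mem_sdiff] at hz
            have hzE := (Finset.mem_insert.1 hz.1).resolve_left hzv
            have hzu := hex z hzE hadj
            subst hzu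
            have := hφ1 z (Finset.mem_sdiff.2 ⟨hzE, hz.2⟩)
            omega
          by_cases hxv : x = v <;> by_cases hyv : y = v
          · rw [hxv, hyv] at hxy
            exact absurd hxy (G.loopless.irrefl _)
          · simp only [hxv, hyv, if_true, if_false]
            rw [hxv] at hxy
            exact (key y hy hyv hxy.symm).symm
          · simp only [hxv, hyv, if_true, if_false]
            rw [hyv] at hxy
            exact key x hx hxv hxy
          · simp only [hxv, hyv, if_false]
            rw [Finset.mem_sdiff] at hx hy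
            exact hφ2 x (Finset.mem_sdiff.2 ⟨(Finset.mem_insert.1 hx.1).resolve_left hxv, hx.2⟩) y
              (Finset.mem_sdiff.2 ⟨(Finset.mem_insert.1 hy.1).resolve_left hyv, hy.2⟩) hxy

theorem near_forest {F : Finset V} (hF : Conn G F) (h2 : 2 ≤ F.card) :
    ∃ Z ⊆ F, Z.card + 2 ≤ (nc G F).card ∧ Col G (F \ Z) 2 := by
  obtain ⟨E, hE, hcard, _, Z, h3, h4, h5⟩ := grow F hF F.card h2 le_rfl
  have e : E = F := Finset.eq_of_subset_of_card_le hE hcard.ge
  subst e
  exact ⟨Z, h3, h4, h5⟩

theorem exists_min_touch {C : Finset V} (hC : Conn G C) (N : Finset ℕ) (H : ℕ → Finset V)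
    (hN : ∀ j ∈ N, Touch G C (H j)) :
    ∃ K ⊆ C, Conn G K ∧ (∀ j ∈ N, Touch G K (H j)) ∧ ∃ Z ⊆ K, Z.card ≤ N.card - 2 ∧ Col G (K \ Z) 2 := by
  set F : Finset (Finset V) := C.powerset.filter (fun K => Conn G K ∧ ∀ j ∈ N, Touch G K (H j)) with hF
  have hne : F.Nonempty := ⟨C, by
    rw [hF, Finset.mem_filter, Finset.mem_powerset]
    exact ⟨Finset.Subset.refl _, hC, hN⟩⟩
  obtain ⟨K, hK, hmin⟩ := Finset.exists_min_image F Finset.card hne
  rw [hF, Finset.mem_filter, Finset.mem_powerset] at hK
  obtain ⟨hKC, hKconn, hKt⟩ := hK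
  refine ⟨K, hKC, hKconn, hKt, ?_⟩
  have hex : ∀ v ∈ nc G K, ∃ j ∈ N, ¬ Touch G (K.erase v) (H j) := by
    intro v hv
    obtain ⟨hvK, hvc⟩ := mem_nc.1 hv
    by_contra hcon
    push Not at hcon
    have h1 : K.erase v ∈ F := by
      rw [hF, Finset.mem_filter, Finset.mem_powerset]
      exact ⟨(Finset.erase_subset _ _).trans hKC, hvc, hcon⟩
    have h2 := hmin _ h1
    have h3 := Finset.card_erase_lt_of_mem hvK
    omega
  choose! f hf1 hf2 using hex
  have hcard : (nc G K).card ≤ N.card := by
    apply Finset.card_le_card_of_injOn f (fun v hv => hf1 v hv)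
    intro v hv w hw hvw
    by_contra hne'
    obtain ⟨a, ha, b, hb, hab⟩ := hKt _ (hf1 v hv)
    by_cases hav : a = v
    · apply hf2 w hw
      rw [← hvw]
      exact ⟨a, Finset.mem_erase.2 ⟨fun h => hne' (hav.symm.trans h), ha⟩, b, hb, hab⟩
    · exact hf2 v hv ⟨a, Finset.mem_erase.2 ⟨hav, ha⟩, b, hb, hab⟩
  by_cases h2 : 2 ≤ K.card
  · obtain ⟨Z, hZ1, hZ2, hZ3⟩ := near_forest hKconn h2
    exact ⟨Z, hZ1, by omega, hZ3⟩
  · refine ⟨∅, Finset.empty_subset _, by simp, ?_⟩
    rw [Finset.sdiff_empty]
    exact (col_card K).mono (Finset.Subset.refl _) (by omega)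

end HDR57
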