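import Pool.Agent.LibHDR57.C

set_option autoImplicit false

open scoped Classical

noncomputable section

namespace HDR57

open HD

variable {V : Type*} [Fintype V] [DecidableEq V] {G : SimpleGraph V}

/-- The vertices outside of the first `m` parts. -/
def unc (H : ℕ → Finset V) (m : ℕ) : Finset V := Finset.univ \ (Finset.range m).biUnion H

theorem mem_unc {H : ℕ → Finset V} {m : ℕ} {x : V} : x ∈ unc H m ↔ ∀ i < m, x ∉ H i := by
  simp [unc]

theorem unc_succ {H H' : ℕ → Finset V} {m : ℕ} {K : Finset V} (hHm : H' m = K)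
    (hH : ∀ i < m, H' i = H i) : unc H' (m + 1) = unc H m \ K := by
  ext x
  rw [mem_unc, Finset.mem_sdiff, mem_unc]
  constructor
  · intro h
    refine ⟨fun i hi => ?_, ?_⟩
    · have := h i (by omega)
      rwa [hH i hi] at this
    · have := h m (by omega)
      rwa [hHm] at this
  · rintro ⟨h1, h2⟩ i hi
    rcases Nat.lt_succ_iff_lt_or_eq.1 hi with h | h
    · rw [hH i h]; exact h1 i h
    · rw [h, hHm]; exact h2

/-- A chordal family of connected parts: `N i` is the set of the earlier parts touching the component from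
which the part `i` was taken, `p i` its parent. -/
structure Part (G : SimpleGraph V) (m : ℕ) (H : ℕ → Finset V) (N : ℕ → Finset ℕ) (p : ℕ → ℕ) : Prop where
  conn : ∀ i < m, Conn G (H i)
  disj : ∀ i < m, ∀ j < m, i ≠ j → Disjoint (H i) (H j)
  lt : ∀ i < m, ∀ j ∈ N i, j < i
  touch : ∀ i < m, ∀ j ∈ N i, Touch G (H i) (H j)
  clique : ∀ i < m, ∀ j ∈ N i, ∀ k ∈ N i, j ≠ k → Touch G (H j) (H k)
  edge : ∀ i < m, ∀ j < i, Touch G (H i) (H j) → j ∈ N i
  par : ∀ i < m, i ≠ 0 → p i < i ∧ ∀ j ∈ N i, j ≠ p i → j ∈ N (p i)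
  good : ∀ i < m, ∃ Z ⊆ H i, Z.card ≤ (N i).card - 2 ∧ Col G (H i \ Z) 2
  out : ∀ x ∈ unc H m, (∃ j < m, Touch G (comp G (unc H m) x) (H j)) →
    ∃ i < m, Touch G (comp G (unc H m) x) (H i) ∧
      ∀ j < m, Touch G (comp G (unc H m) x) (H j) → j = i ∨ j ∈ N i

theorem part_zero (H : ℕ → Finset V) (N : ℕ → Finset ℕ) (p : ℕ → ℕ) : Part G 0 H N p where
  conn := fun i hi => absurd hi (Nat.not_lt_zero i)
  disj := fun i hi => absurd hi (Nat.not_lt_zero i)
  lt := fun i hi => absurd hi (Nat.not_lt_zero i)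
  touch := fun i hi => absurd hi (Nat.not_lt_zero i)
  clique := fun i hi => absurd hi (Nat.not_lt_zero i)
  edge := fun i hi => absurd hi (Nat.not_lt_zero i)
  par := fun i hi => absurd hi (Nat.not_lt_zero i)
  good := fun i hi => absurd hi (Nat.not_lt_zero i)
  out := by
    rintro x _ ⟨j, hj, _⟩
    exact absurd hj (Nat.not_lt_zero j)

theorem Part.extend {m : ℕ} {H : ℕ → Finset V} {N : ℕ → Finset ℕ} {p : ℕ → ℕ} (hP : Part G m H N p)
    (hne : (unc H m).Nonempty) :
    ∃ (H' : ℕ → Finset V) (N' : ℕ → Finset ℕ) (p' : ℕ → ℕ), Part G (m + 1) H' N' p' ∧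
      (unc H' (m + 1)).card < (unc H m).card := by
  obtain ⟨x, hx⟩ := hne
  set U : Finset V := unc H m with hU
  set C : Finset V := comp G U x with hC
  have hCU : C ⊆ U := comp_subset U x
  have hCconn : Conn G C := conn_comp hx
  set NC : Finset ℕ := (Finset.range m).filter (fun j => Touch G C (H j)) with hNC
  have memNC : ∀ j, j ∈ NC ↔ j < m ∧ Touch G C (H j) := fun j => by
    rw [hNC, Finset.mem_filter, Finset.mem_range]
  -- the parent
  obtain ⟨i0, hi0⟩ : ∃ i0 : ℕ, (m ≠ 0 → i0 < m) ∧ (∀ j ∈ NC, j ≠ i0 → i0 ∈ NC ∧ j ∈ N i0) := by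
    by_cases h : ∃ j < m, Touch G C (H j)
    · obtain ⟨i, hi, hit, hij⟩ := hP.out x hx h
      refine ⟨i, fun _ => hi, fun j hj hji => ⟨(memNC i).2 ⟨hi, hit⟩, ?_⟩⟩
      exact (hij j ((memNC j).1 hj).1 ((memNC j).1 hj).2).resolve_left hji
    · refine ⟨0, fun h0 => Nat.pos_of_ne_zero h0, fun j hj => ?_⟩
      exact absurd ⟨j, ((memNC j).1 hj).1, ((memNC j).1 hj).2⟩ h
  obtain ⟨hi0m, hi0N⟩ := hi0
  obtain ⟨K, hKC, hKconn, hKt, Z, hZK, hZc, hZcol⟩ := exists_min_touch hCconn NC H
    (fun j hj => ((memNC j).1 hj).2)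
  have hKU : K ⊆ U := hKC.trans hCU
  have hKdisj : ∀ i < m, Disjoint K (H i) := by
    intro i hi
    rw [Finset.disjoint_left]
    intro z hz
    exact mem_unc.1 (hKU hz) i hi
  obtain ⟨H', hHm, hH⟩ : ∃ H' : ℕ → Finset V, H' m = K ∧ ∀ i < m, H' i = H i :=
    ⟨Function.update H m K, by simp, fun i hi => by simp [hi.ne]⟩
  obtain ⟨N', hNm, hN⟩ : ∃ N' : ℕ → Finset ℕ, N' m = NC ∧ ∀ i < m, N' i = N i :=
    ⟨Function.update N m NC, by simp, fun i hi => by simp [hi.ne]⟩
  obtain ⟨p', hpm, hp⟩ : ∃ p' : ℕ → ℕ, p' m = i0 ∧ ∀ i < m, p' i = p i :=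
    ⟨Function.update p m i0, by simp, fun i hi => by simp [hi.ne]⟩
  have hU' : unc H' (m + 1) = U \ K := unc_succ hHm hH
  have cliqueNC : ∀ j ∈ NC, ∀ k ∈ NC, j ≠ k → Touch G (H j) (H k) := by
    intro j hj k hk hjk
    by_cases h1 : j = i0
    · have h2 := hi0N k hk (fun h => hjk (h1.trans h.symm))
      rw [h1]
      exact hP.touch i0 ((memNC i0).1 h2.1).1 k h2.2
    · have h2 := hi0N j hj h1
      have h3 := ((memNC i0).1 h2.1).1
      by_cases h4 : k = i0
      · rw [h4]
        exact (hP.touch i0 h3 j h2.2).symm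
      · exact hP.clique i0 h3 j h2.2 k (hi0N k hk h4).2 hjk
  refine ⟨H', N', p', ?_, ?_⟩
  · constructor
    · intro i hi
      rcases Nat.lt_succ_iff_lt_or_eq.1 hi with h | h
      · rw [hH i h]; exact hP.conn i h
      · rw [h, hHm]; exact hKconn
    · intro i hi j hj hij
      rcases Nat.lt_succ_iff_lt_or_eq.1 hi with h | h <;> rcases Nat.lt_succ_iff_lt_or_eq.1 hj with h' | h'
      · rw [hH i h, hH j h']; exact hP.disj i h j h' hij
      · rw [hH i h, h', hHm]; exact (hKdisj i h).symm
      · rw [h, hHm, hH j h']; exact hKdisj j h'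
      · exact absurd (h.trans h'.symm) hij
    · intro i hi j hj
      rcases Nat.lt_succ_iff_lt_or_eq.1 hi with h | h
      · rw [hN i h] at hj; exact hP.lt i h j hj
      · rw [h, hNm] at hj
        rw [h]
        exact ((memNC j).1 hj).1
    · intro i hi j hj
      rcases Nat.lt_succ_iff_lt_or_eq.1 hi with h | h
      · rw [hN i h] at hj
        rw [hH i h, hH j ((hP.lt i h j hj).trans h)]
        exact hP.touch i h j hj
      · rw [h, hNm] at hj
        rw [h, hHm, hH j ((memNC j).1 hj).1]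
        exact hKt j hj
    · intro i hi j hj k hk hjk
      rcases Nat.lt_succ_iff_lt_or_eq.1 hi with h | h
      · rw [hN i h] at hj hk
        rw [hH j ((hP.lt i h j hj).trans h), hH k ((hP.lt i h k hk).trans h)]
        exact hP.clique i h j hj k hk hjk
      · rw [h, hNm] at hj hk
        rw [hH j ((memNC j).1 hj).1, hH k ((memNC k).1 hk).1]
        exact cliqueNC j hj k hk hjk
    · intro i hi j hj ht
      rcases Nat.lt_succ_iff_lt_or_eq.1 hi with h | h
      · rw [hN i h]
        rw [hH i h, hH j (hj.trans h)] at ht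
        exact hP.edge i h j hj ht
      · rw [h, hNm]
        rw [h] at hj
        rw [h, hHm, hH j hj] at ht
        exact (memNC j).2 ⟨hj, ht.mono hKC (Finset.Subset.refl _)⟩
    · intro i hi hi0'
      rcases Nat.lt_succ_iff_lt_or_eq.1 hi with h | h
      · obtain ⟨h1, h2⟩ := hP.par i h hi0'
        rw [hN i h, hp i h, hN (p i) (h1.trans h)]
        exact ⟨h1, h2⟩
      · rw [h] at hi0' ⊢
        have h1 := hi0m hi0'
        rw [hNm, hpm, hN i0 h1]
        exact ⟨h1, fun j hj hji => (hi0N j hj hji).2⟩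
    · intro i hi
      rcases Nat.lt_succ_iff_lt_or_eq.1 hi with h | h
      · rw [hH i h, hN i h]; exact hP.good i h
      · rw [h, hHm, hNm]; exact ⟨Z, hZK, hZc, hZcol⟩
    · intro y hy hex
      rw [hU'] at hy hex ⊢
      obtain ⟨hyU, hyK⟩ := Finset.mem_sdiff.1 hy
      set C' : Finset V := comp G (U \ K) y with hC'
      have hC'conn : Conn G C' := conn_comp hy
      have hC'sub : C' ⊆ U \ K := comp_subset _ _
      by_cases hyC : y ∈ C
      · -- a component inside `C`
        have hC'C : C' ⊆ C := comp_absorb hC'conn (hC'sub.trans Finset.sdiff_subset) (mem_comp_self hy) hyC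
        obtain ⟨k, hk⟩ := hKconn.nonempty
        have hkC' : k ∉ C' := fun h => (Finset.mem_sdiff.1 (hC'sub h)).2 hk
        obtain ⟨u, hu, v, hv, huv⟩ := hCconn.pc C' hC'C ⟨y, mem_comp_self hy⟩
          ⟨k, Finset.mem_sdiff.2 ⟨hKC hk, hkC'⟩⟩
        obtain ⟨hvC, hvC'⟩ := Finset.mem_sdiff.1 hv
        have hvK : v ∈ K := by
          by_contra hvK
          exact hvC' (comp_closed hu (Finset.mem_sdiff.2 ⟨hCU hvC, hvK⟩) huv)
        refine ⟨m, Nat.lt_succ_self m, ?_, ?_⟩
        · rw [hHm]; exact ⟨u, hu, v, hvK, huv⟩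
        · intro j hj ht
          rcases Nat.lt_succ_iff_lt_or_eq.1 hj with h | h
          · right
            rw [hNm]
            rw [hH j h] at ht
            exact (memNC j).2 ⟨h, ht.mono hC'C (Finset.Subset.refl _)⟩
          · exact Or.inl h
      · -- an old component
        have hdisj : ∀ z ∈ comp G U y, z ∉ C := by
          intro z hz hzC
          apply hyC
          have h1 : Joined G U y z := mem_comp.1 hz
          have h2 : Joined G U x z := mem_comp.1 hzC
          exact mem_comp.2 (h2.trans h1.symm)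
        have hsub1 : comp G U y ⊆ C' := by
          refine comp_absorb (conn_comp hyU) ?_ (mem_comp_self hyU) (mem_comp_self hy)
          intro z hz
          exact Finset.mem_sdiff.2 ⟨comp_subset U y hz, fun hzK => hdisj z hz (hKC hzK)⟩
        have hsub2 : C' ⊆ comp G U y :=
          comp_absorb hC'conn (hC'sub.trans Finset.sdiff_subset) (mem_comp_self hy) (mem_comp_self hyU)
        have heq : C' = comp G U y := Finset.Subset.antisymm hsub2 hsub1
        have hnoK : ¬ Touch G C' K := by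
          rintro ⟨u, hu, v, hv, huv⟩
          rw [heq] at hu
          exact hdisj v (comp_closed hu (hKU hv) huv) (hKC hv)
        have hex' : ∃ j < m, Touch G (comp G U y) (H j) := by
          obtain ⟨j, hj, ht⟩ := hex
          rcases Nat.lt_succ_iff_lt_or_eq.1 hj with h | h
          · rw [hH j h, heq] at ht
            exact ⟨j, h, ht⟩
          · rw [h, hHm] at ht
            exact absurd ht hnoK
        obtain ⟨i, hi, hit, hij⟩ := hP.out y hyU hex'
        refine ⟨i, by omega, ?_, ?_⟩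
        · rw [hH i hi, heq]; exact hit
        · intro j hj ht
          rcases Nat.lt_succ_iff_lt_or_eq.1 hj with h | h
          · rw [hN i hi]
            rw [hH j h, heq] at ht
            exact hij j h ht
          · rw [h, hHm] at ht
            exact absurd ht hnoK
  · rw [hU']
    apply Finset.card_lt_card
    rw [Finset.ssubset_iff_subset_ne]
    refine ⟨Finset.sdiff_subset, fun heq => ?_⟩
    obtain ⟨k, hk⟩ := hKconn.nonempty
    have := hKU hk
    rw [← heq] at this
    exact (Finset.mem_sdiff.1 this).2 hk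

theorem exists_part (G : SimpleGraph V) : ∃ (m : ℕ) (H : ℕ → Finset V) (N : ℕ → Finset ℕ) (p : ℕ → ℕ),
    Part G m H N p ∧ unc H m = ∅ := by
  have key : ∀ (n m : ℕ) (H : ℕ → Finset V) (N : ℕ → Finset ℕ) (p : ℕ → ℕ), Part G m H N p →
      (unc H m).card = n → ∃ (m : ℕ) (H : ℕ → Finset V) (N : ℕ → Finset ℕ) (p : ℕ → ℕ),
        Part G m H N p ∧ unc H m = ∅ := by
    intro n
    induction n using Nat.strong_induction_on with
    | _ n ih =>
      intro m H N p hP hn
      by_cases h : (unc H m).Nonempty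
      · obtain ⟨H', N', p', hP', hlt⟩ := hP.extend h
        exact ih _ (by omega) (m + 1) H' N' p' hP' rfl
      · exact ⟨m, H, N, p, hP, Finset.not_nonempty_iff_eq_empty.1 h⟩
  exact key _ 0 (fun _ => ∅) (fun _ => ∅) (fun _ => 0) (part_zero _ _ _) rfl

end HDR57
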