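import Pool.Agent.LibHDR57.A
import Pool.Agent.LibHDR57.D

set_option autoImplicit false

open scoped Classical

noncomputable section

namespace HDR57

open HD

theorem model_sets {V : Type} [Fintype V] [DecidableEq V] {G : SimpleGraph V} {U : Finset V} {k : ℕ}
    (h : Model G U k) :
    ∃ f : Fin k → Set V, (∀ i, (G.induce (f i)).Connected) ∧ (∀ i j, i ≠ j → Disjoint (f i) (f j)) ∧
      (∀ i j, i ≠ j → ∃ u ∈ f i, ∃ v ∈ f j, G.Adj u v) := by
  obtain ⟨f, h1, h2⟩ := h
  refine ⟨fun i => (f i : Set V), fun i => (h1 i).2, fun i j hij => ?_, fun i j hij => ?_⟩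
  · exact Finset.disjoint_coe.2 (h2 i j hij).1
  · obtain ⟨u, hu, v, hv, huv⟩ := (h2 i j hij).2
    exact ⟨u, Finset.mem_coe.2 hu, v, Finset.mem_coe.2 hv, huv⟩

theorem col_colorable {V : Type} [Fintype V] [DecidableEq V] {G : SimpleGraph V} {U : Finset V} {c : ℕ}
    (h : Col G U c) (S : Set V) (hS : ∀ v ∈ S, v ∈ U) : (G.induce S).Colorable c := by
  obtain ⟨φ, h1, h2⟩ := h
  refine ⟨⟨fun v => ⟨φ v.1, h1 _ (hS _ v.2)⟩, ?_⟩⟩
  intro a b hab heq
  have h3 : G.Adj a.1 b.1 := hab
  exact h2 _ (hS _ a.2) _ (hS _ b.2) h3 (congrArg Fin.val heq)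

theorem col_biUnion {V : Type} [Fintype V] [DecidableEq V] {G : SimpleGraph V} (J : Finset ℕ)
    (A : ℕ → Finset V) (h : ∀ j ∈ J, Col G (A j) 2) : Col G (J.biUnion A) (2 * J.card) := by
  induction J using Finset.induction_on with
  | empty => simpa using col_empty (G := G) 0
  | insert a s ha ih =>
    have h1 := ih (fun j hj => h j (Finset.mem_insert_of_mem hj))
    have h2 := (h a (Finset.mem_insert_self _ _)).union h1
    rw [Finset.biUnion_insert, Finset.card_insert_of_notMem ha]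
    exact h2.mono (Finset.Subset.refl _) (by omega)

variable {V : Type} [Fintype V] [DecidableEq V] {G : SimpleGraph V}

theorem Part.card_le {m : ℕ} {H : ℕ → Finset V} {N : ℕ → Finset ℕ} {p : ℕ → ℕ} (hP : Part G m H N p)
    {t : ℕ} (hno : ¬ Model G Finset.univ (t + 1)) {w : ℕ} (hw : w < m) : (N w).card + 1 ≤ t := by
  by_contra hcon
  apply hno
  have hwN : w ∉ N w := fun h => lt_irrefl _ (hP.lt w hw w h)
  have hlt : ∀ j ∈ insert w (N w), j < m := by
    intro j hj
    rcases Finset.mem_insert.1 hj with h | h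
    · rw [h]; exact hw
    · exact (hP.lt w hw j h).trans hw
  have hM : IsModel G Finset.univ (fun j : (insert w (N w) : Finset ℕ) => H j.1) := by
    refine ⟨fun j => ⟨Finset.subset_univ _, hP.conn _ (hlt _ j.2)⟩, fun j k hjk => ?_⟩
    have hjk' : j.1 ≠ k.1 := fun h => hjk (Subtype.ext h)
    refine ⟨hP.disj _ (hlt _ j.2) _ (hlt _ k.2) hjk', ?_⟩
    change Touch G (H j.1) (H k.1)
    rcases Finset.mem_insert.1 j.2 with h | h <;> rcases Finset.mem_insert.1 k.2 with h' | h'
    · exact absurd (h.trans h'.symm) hjk'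
    · rw [h]; exact hP.touch w hw _ h'
    · rw [h']; exact (hP.touch w hw _ h).symm
    · exact hP.clique w hw _ h _ h' hjk'
  have h1 := hM.model
  rw [Fintype.card_coe, Finset.card_insert_of_notMem hwN] at h1
  exact h1.mono (Finset.Subset.refl _) (by omega)

theorem structure_thm (V : Type) [Fintype V] (G : SimpleGraph V) (t : ℕ)
    (hno : ¬ ∃ f : Fin (t + 1) → Set V, (∀ i, (G.induce (f i)).Connected) ∧
      (∀ i j, i ≠ j → Disjoint (f i) (f j)) ∧ (∀ i j, i ≠ j → ∃ u ∈ f i, ∃ v ∈ f j, G.Adj u v)) :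
    ∃ n : ℕ, ∃ T : SimpleGraph (Fin n), T.IsTree ∧ ∃ β : Fin n → Set V,
      (∀ u v, G.Adj u v → ∃ w, u ∈ β w ∧ v ∈ β w) ∧
      (∀ v, (T.induce {w | v ∈ β w}).Connected) ∧
      (∀ w, ∃ Z ⊆ β w, Z.ncard ≤ t * (t - 3) ∧ (G.induce (β w \ Z)).Colorable (2 * t)) := by
  classical
  obtain ⟨m, H, N, p, hP, hunc⟩ := exists_part G
  have hcov : ∀ v : V, ∃ l < m, v ∈ H l := by
    intro v
    by_contra hcon
    push Not at hcon
    have : v ∈ unc H m := mem_unc.2 hcon
    rw [hunc] at this
    exact absurd this (Finset.notMem_empty v)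
  have hno' : ¬ Model G Finset.univ (t + 1) := fun h => hno (model_sets h)
  rcases Nat.eq_zero_or_pos m with hm0 | hm
  · have hV : ∀ v : V, False := by
      intro v
      obtain ⟨l, hl, _⟩ := hcov v
      omega
    refine ⟨1, parT (fun i => i), parT_tree Nat.one_pos _ (fun i hi => absurd (by omega) hi), fun _ => ∅,
      fun u => (hV u).elim, fun v => (hV v).elim, fun w => ⟨∅, Set.Subset.refl _, by simp, ?_⟩⟩
    exact col_colorable (col_empty (2 * t)) _ (fun v => (hV v).elim)
  · have huniq : ∀ (v : V) (i j : ℕ), i < m → j < m → v ∈ H i → v ∈ H j → i = j := by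
      intro v i j hi hj h1 h2
      by_contra hij
      exact (Finset.disjoint_left.1 (hP.disj i hi j hj hij)) h1 h2
    set pF : Fin m → Fin m := fun i => if h : i.val ≠ 0 then ⟨p i.val, ((hP.par i.val i.2 h).1).trans i.2⟩ else i
      with hpF
    have hpF1 : ∀ i : Fin m, i.val ≠ 0 → (pF i).val = p i.val := by
      intro i hi
      rw [hpF]
      simp only [dif_pos hi]
    have hpF2 : ∀ i : Fin m, i.val ≠ 0 → pF i < i := by
      intro i hi
      rw [Fin.lt_def, hpF1 i hi]
      exact (hP.par i.val i.2 hi).1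
    set β : Fin m → Set V := fun w => {v | ∃ j ∈ insert w.val (N w.val), v ∈ H j} with hβ
    have hlt : ∀ w : Fin m, ∀ j ∈ insert w.val (N w.val), j < m := by
      intro w j hj
      rcases Finset.mem_insert.1 hj with h | h
      · rw [h]; exact w.2
      · exact (hP.lt w.val w.2 j h).trans w.2
    refine ⟨m, parT pF, parT_tree hm pF hpF2, β, ?_, ?_, ?_⟩
    · intro u v huv
      obtain ⟨i, hi, hui⟩ := hcov u
      obtain ⟨j, hj, hvj⟩ := hcov v
      rcases lt_trichotomy i j with h | h | h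
      · refine ⟨⟨j, hj⟩, ⟨i, ?_, hui⟩, ⟨j, Finset.mem_insert_self _ _, hvj⟩⟩
        exact Finset.mem_insert_of_mem (hP.edge j hj i h ⟨v, hvj, u, hui, huv.symm⟩)
      · refine ⟨⟨i, hi⟩, ⟨i, Finset.mem_insert_self _ _, hui⟩, ⟨i, Finset.mem_insert_self _ _, ?_⟩⟩
        rw [h]; exact hvj
      · refine ⟨⟨i, hi⟩, ⟨i, Finset.mem_insert_self _ _, hui⟩, ⟨j, ?_, hvj⟩⟩
        exact Finset.mem_insert_of_mem (hP.edge i hi j h ⟨u, hui, v, hvj, huv⟩)
    · intro v
      obtain ⟨l, hl, hvl⟩ := hcov v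
      apply parT_induce_conn pF {w | v ∈ β w} ⟨l, hl⟩
      · exact ⟨l, Finset.mem_insert_self _ _, hvl⟩
      · intro i hi hil
        obtain ⟨j, hj, hvj⟩ := hi
        have hjl : j = l := huniq v j l (hlt i j hj) hl hvj hvl
        subst hjl
        have hil' : j ≠ i.val := fun h => hil (Fin.ext h.symm)
        have hjN : j ∈ N i.val := (Finset.mem_insert.1 hj).resolve_left hil'
        have hji : j < i.val := hP.lt i.val i.2 j hjN
        have hi0 : i.val ≠ 0 := by omega
        refine ⟨⟨j, ?_, hvj⟩, hpF2 i hi0⟩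
        rw [hpF1 i hi0]
        by_cases h : j = p i.val
        · rw [← h]; exact Finset.mem_insert_self _ _
        · exact Finset.mem_insert_of_mem ((hP.par i.val i.2 hi0).2 j hjN h)
    · intro w
      have hgood : ∀ j ∈ insert w.val (N w.val), ∃ Z ⊆ H j, Z.card ≤ t - 3 ∧ Col G (H j \ Z) 2 := by
        intro j hj
        obtain ⟨Z, hZ1, hZ2, hZ3⟩ := hP.good j (hlt w j hj)
        have := hP.card_le hno' (hlt w j hj)
        exact ⟨Z, hZ1, by omega, hZ3⟩
      choose! Z hZ1 hZ2 hZ3 using hgood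
      have hcard : (insert w.val (N w.val)).card ≤ t := by
        have h1 := hP.card_le hno' w.2
        have h2 := Finset.card_insert_le w.val (N w.val)
        omega
      refine ⟨(((insert w.val (N w.val)).biUnion Z : Finset V) : Set V), ?_, ?_, ?_⟩
      · intro v hv
        rw [Finset.mem_coe, Finset.mem_biUnion] at hv
        obtain ⟨j, hj, hvj⟩ := hv
        exact ⟨j, hj, hZ1 j hj hvj⟩
      · rw [Set.ncard_coe_finset]
        calc ((insert w.val (N w.val)).biUnion Z).card ≤ ∑ j ∈ insert w.val (N w.val), (Z j).card :=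
              Finset.card_biUnion_le
          _ ≤ ∑ _j ∈ insert w.val (N w.val), (t - 3) := Finset.sum_le_sum hZ2
          _ = (insert w.val (N w.val)).card * (t - 3) := by rw [Finset.sum_const, smul_eq_mul]
          _ ≤ t * (t - 3) := Nat.mul_le_mul_right _ hcard
      · have hcol := col_biUnion (G := G) (insert w.val (N w.val)) (fun j => H j \ Z j) hZ3
        refine col_colorable (hcol.mono (Finset.Subset.refl _) (Nat.mul_le_mul_left 2 hcard)) _ ?_
        rintro v ⟨⟨j, hj, hvj⟩, hvZ⟩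
        rw [Finset.mem_biUnion]
        refine ⟨j, hj, Finset.mem_sdiff.2 ⟨hvj, fun hz => hvZ ?_⟩⟩
        rw [Finset.mem_coe, Finset.mem_biUnion]
        exact ⟨j, hj, hz⟩

end HDR57
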